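import Pool.Agent.Helper87.MX.Fr

/-!
# MixingRates (MP_81910f_an), piece CF: the case of finite support
-/

set_option autoImplicit false

open MeasureTheory Finset Filter

namespace Pool.Agent.Helper27.MX

open Pool.Agent.Helper87.MX

variable {μ : Measure Tor}

theorem fourier_mul_nat (n : ℤ) (g : ℕ) (x : Tor) :
    (fourier (n * g) x : ℂ) = fourier n (g • x) := by
  rw [fourier_apply, fourier_apply, mul_smul, natCast_zsmul]

theorem meas_smul (g : ℕ) : Measurable (fun x : Tor => g • x) :=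
  (continuous_const_smul g).measurable

theorem cf_mul (g : ℕ) (h : Inv g μ) (n : ℤ) : cf μ (n * g) = cf μ n := by
  have h2 : Measure.map (fun x : Tor => g • x) μ = μ := h.map_eq
  have h3 : ∫ y, (fourier n y : ℂ) ∂(Measure.map (fun x : Tor => g • x) μ) =
      ∫ x, (fourier n (g • x) : ℂ) ∂μ := by
    refine integral_map (meas_smul g).aemeasurable ?_
    exact (ContinuousMap.continuous (fourier n)).aestronglyMeasurable
  rw [h2] at h3
  unfold cf
  rw [h3]
  simp only [fourier_mul_nat]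

theorem cf_mul_pow (g : ℕ) (h : Inv g μ) (n : ℤ) (b : ℕ) : cf μ (n * g ^ b) = cf μ n := by
  induction b with
  | zero => simp
  | succ b ih => rw [pow_succ, ← mul_assoc, cf_mul g h, ih]

theorem cf_neg (n : ℤ) : cf μ (-n) = (starRingEnd ℂ) (cf μ n) := by
  unfold cf
  rw [← integral_conj]
  congr 1
  ext x
  rw [fourier_neg]

theorem norm_fourier_pt (n : ℤ) (x : Tor) : ‖(fourier n x : ℂ)‖ = 1 := by
  rw [fourier_apply]; exact Circle.norm_coe _

/-- the atoms -/
def At (μ : Measure Tor) : Set Tor := {x | μ {x} ≠ 0}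

theorem smul_mem_At (g : ℕ) (h : Inv g μ) {x : Tor} (hx : x ∈ At μ) : g • x ∈ At μ := by
  have h1 : μ ((fun y : Tor => g • y) ⁻¹' {g • x}) = μ {g • x} :=
    h.measure_preimage (measurableSet_singleton _).nullMeasurableSet
  intro h0
  apply hx
  have h2 : ({x} : Set Tor) ⊆ (fun y : Tor => g • y) ⁻¹' {g • x} := by
    intro y hy
    rw [Set.mem_singleton_iff.1 hy]
    simp
  refine le_antisymm ?_ zero_le
  calc μ {x} ≤ _ := measure_mono h2
    _ = 0 := by rw [h1, h0]

theorem At_finite {Z : Set Tor} (hZ : Z.Finite) (h0 : μ Zᶜ = 0) : (At μ).Finite := by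
  refine hZ.subset ?_
  intro x hx
  by_contra hn
  apply hx
  refine le_antisymm ?_ zero_le
  calc μ {x} ≤ μ Zᶜ := measure_mono (by intro y hy; rw [Set.mem_singleton_iff.1 hy]; exact hn)
    _ = 0 := h0

theorem ae_At {Z : Set Tor} (hZ : Z.Finite) (h0 : μ Zᶜ = 0) : ∀ᵐ x ∂μ, x ∈ At μ := by
  have h1 : μ (Z \ At μ) = 0 := by
    have h2 : (Z \ At μ).Finite := hZ.subset Set.sdiff_subset
    rw [← Set.biUnion_of_singleton (Z \ At μ)]
    refine (measure_biUnion_null_iff h2.countable).2 ?_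
    intro x hx
    by_contra hn
    exact hx.2 hn
  have h3 : μ (At μ)ᶜ = 0 := by
    refine le_antisymm ?_ zero_le
    calc μ (At μ)ᶜ ≤ μ (Zᶜ ∪ Z \ At μ) := by
          refine measure_mono ?_
          intro x hx
          by_cases hz : x ∈ Z
          · exact Or.inr ⟨hz, hx⟩
          · exact Or.inl hz
      _ ≤ μ Zᶜ + μ (Z \ At μ) := measure_union_le _ _
      _ = 0 := by rw [h0, h1, add_zero]
  exact h3

/-- eventual periodicity, uniformly over the atoms -/
theorem periodic {g : ℕ} (h : Inv g μ) (hA : (At μ).Finite) :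
    ∃ n₀ m : ℕ, 1 ≤ m ∧ ∀ x ∈ At μ, ∀ t : ℕ, (g ^ (n₀ + m * t)) • x = (g ^ n₀) • x := by
  have : Finite (At μ) := hA
  let T : At μ → At μ := fun x => ⟨g • (x : Tor), smul_mem_At g h x.2⟩
  have hT : ∀ (n : ℕ) (x : At μ), ((T^[n] x : At μ) : Tor) = (g ^ n) • (x : Tor) := by
    intro n
    induction n with
    | zero => intro x; simp
    | succ n ih =>
      intro x
      rw [Function.iterate_succ_apply, ih, pow_succ, mul_smul]
  obtain ⟨a, b, hab, hf⟩ := Finite.exists_ne_map_eq_of_infinite (fun n : ℕ => (T^[n] : At μ → At μ))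
  have key : ∀ a b : ℕ, a < b → (T^[a] : At μ → At μ) = T^[b] →
      ∃ n₀ m : ℕ, 1 ≤ m ∧ ∀ x ∈ At μ, ∀ t : ℕ, (g ^ (n₀ + m * t)) • x = (g ^ n₀) • x := by
    intro a b hlt hf
    refine ⟨a, b - a, by omega, ?_⟩
    intro x hx t
    have h1 : (g ^ b) • x = (g ^ a) • x := by
      rw [← hT b ⟨x, hx⟩, ← hT a ⟨x, hx⟩, hf]
    induction t with
    | zero => simp
    | succ t ih =>
      have e : a + (b - a) * (t + 1) = (b - a) * t + b := by
        have : b = a + (b - a) := by omega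
        rw [mul_add, mul_one]; omega
      have e2 : a + (b - a) * t = (b - a) * t + a := by omega
      rw [e, pow_add, mul_smul, h1, ← mul_smul, ← pow_add, ← e2]
      exact ih
  rcases lt_or_gt_of_ne hab with hlt | hgt
  · exact key a b hlt hf
  · exact key b a hgt hf.symm

theorem s_CF : S_CF := by
  intro μ hμ h2 h3 hfin g k hg hk hmix
  obtain ⟨Z, hZ, hZ0⟩ := hfin
  have hinv : Inv g μ := by rcases hg with rfl | rfl <;> assumption
  have hg1 : 1 ≤ g := by rcases hg with rfl | rfl <;> norm_num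
  obtain ⟨n₀, m, hm, hper⟩ := periodic hinv (At_finite hZ hZ0)
  obtain ⟨ρ, γ, hanti, hsum, hγ, hmx⟩ := hmix
  have hae := ae_At hZ hZ0
  -- the coefficient at differences
  have hone : ∀ t : ℕ, cf μ ((k : ℤ) * ((g : ℤ) ^ (n₀ + m * t) - (g : ℤ) ^ n₀)) = 1 := by
    intro t
    have h1 : ∀ᵐ x ∂μ, (fourier ((k : ℤ) * ((g : ℤ) ^ (n₀ + m * t) - (g : ℤ) ^ n₀)) x : ℂ) = 1 := by
      filter_upwards [hae] with x hx
      have h2 := hper x hx t
      rw [fourier_apply, mul_smul, sub_smul]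
      have e1 : ((g : ℤ) ^ (n₀ + m * t)) • x = (g ^ (n₀ + m * t)) • x := by
        rw [← natCast_zsmul]; push_cast; rfl
      have e2 : ((g : ℤ) ^ n₀) • x = (g ^ n₀) • x := by
        rw [← natCast_zsmul]; push_cast; rfl
      rw [e1, e2, h2, sub_self, smul_zero]
      simp
    unfold cf
    rw [integral_congr_ae h1]
    simp
  have hnorm : cf μ k * (starRingEnd ℂ) (cf μ k) = 1 := by
    have hb : ∀ t : ℕ, 1 ≤ t → ‖1 - cf μ k * (starRingEnd ℂ) (cf μ k)‖ ≤ ρ (m * t) := by
      intro t ht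
      have hD : (1 : ℝ) ≤ ((m * t : ℕ) : ℝ) := by
        have : 1 ≤ m * t := Nat.one_le_iff_ne_zero.2 (by positivity)
        exact_mod_cast this
      have hpos : (0 : ℝ) ≤ (((m * t : ℕ) : ℝ)) ^ γ := by positivity
      have hd : (((m * t : ℕ) : ℝ)) ≤ |((n₀ + m * t : ℕ) : ℝ) - ((n₀ : ℕ) : ℝ)| := by
        push_cast
        rw [add_sub_cancel_left]
        exact le_abs_self _
      have hx := hmx (n₀ + m * t) (n₀ + m * t) n₀ n₀ (m * t) 1 0 0 1 (Or.inr rfl) (Or.inl rfl)
        (Or.inl rfl) (Or.inr rfl) (by rw [sub_self, abs_zero]; exact hpos)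
        (by rw [sub_self, abs_zero]; exact hpos) hd hd hd hd
      have e1 : (k : ℤ) * (1 * (g : ℤ) ^ (n₀ + m * t) - 0 * (g : ℤ) ^ (n₀ + m * t) +
          (0 * (g : ℤ) ^ n₀ - 1 * (g : ℤ) ^ n₀)) =
          (k : ℤ) * ((g : ℤ) ^ (n₀ + m * t) - (g : ℤ) ^ n₀) := by ring
      have e2 : (k : ℤ) * (1 * (g : ℤ) ^ (n₀ + m * t) - 0 * (g : ℤ) ^ (n₀ + m * t)) =
          (k : ℤ) * (g : ℤ) ^ (n₀ + m * t) := by ring
      have e3 : (k : ℤ) * (0 * (g : ℤ) ^ n₀ - 1 * (g : ℤ) ^ n₀) =
          -((k : ℤ) * (g : ℤ) ^ n₀) := by ring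
      rw [e1, e2, e3, hone t, cf_neg, cf_mul_pow g hinv, cf_mul_pow g hinv] at hx
      exact hx
    have hlim : Tendsto (fun t : ℕ => ρ (m * t)) atTop (nhds 0) := by
      refine hsum.tendsto_atTop_zero.comp ?_
      refine tendsto_atTop_mono (fun t => ?_) tendsto_id
      exact Nat.le_mul_of_pos_left t (by omega)
    have h0 : ‖1 - cf μ k * (starRingEnd ℂ) (cf μ k)‖ ≤ 0 := by
      refine ge_of_tendsto hlim ?_
      filter_upwards [eventually_ge_atTop 1] with t ht
      exact hb t ht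
    have h1 := norm_le_zero_iff.1 h0
    exact (sub_eq_zero.1 h1).symm
  right
  -- the character is almost surely constant
  set c := cf μ k with hc
  have hcn : ‖c‖ = 1 := by
    have h1 : ((‖c‖ ^ 2 : ℝ) : ℂ) = 1 := by
      rw [← hnorm, Complex.mul_conj, Complex.normSq_eq_norm_sq]
    have h2 : ‖c‖ ^ 2 = 1 := by exact_mod_cast h1
    nlinarith [norm_nonneg c]
  have hint : Integrable (fun x : Tor => (fourier (k : ℤ) x : ℂ)) μ := by
    refine Integrable.mono' (integrable_const (1 : ℝ)) ?_ ?_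
    · exact (ContinuousMap.continuous (fourier (k : ℤ))).aestronglyMeasurable
    · exact Eventually.of_forall fun x => by rw [norm_fourier_pt]
  have hconst : ∀ᵐ x ∂μ, (fourier (k : ℤ) x : ℂ) = c := by
    have hre : ∫ x, (1 - (((starRingEnd ℂ) c) * (fourier (k : ℤ) x : ℂ)).re) ∂μ = 0 := by
      have hi2 : Integrable (fun x : Tor => ((starRingEnd ℂ) c) * (fourier (k : ℤ) x : ℂ)) μ :=
        hint.const_mul _
      have h1 : ∫ x, (((starRingEnd ℂ) c) * (fourier (k : ℤ) x : ℂ)).re ∂μ =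
          (∫ x, ((starRingEnd ℂ) c) * (fourier (k : ℤ) x : ℂ) ∂μ).re := by
        exact integral_re hi2
      have hi2r : Integrable (fun x : Tor =>
          (((starRingEnd ℂ) c) * (fourier (k : ℤ) x : ℂ)).re) μ := hi2.re
      rw [integral_sub (integrable_const _) hi2r, h1, integral_const_mul]
      have h4 : ∫ x, (fourier (k : ℤ) x : ℂ) ∂μ = c := rfl
      rw [h4, mul_comm, hnorm]
      simp
    have hnn : ∀ x : Tor, 0 ≤ 1 - (((starRingEnd ℂ) c) * (fourier (k : ℤ) x : ℂ)).re := by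
      intro x
      have h1 : (((starRingEnd ℂ) c) * (fourier (k : ℤ) x : ℂ)).re ≤ 1 := by
        refine (Complex.re_le_norm _).trans ?_
        rw [norm_mul, norm_fourier_pt, mul_one, RCLike.norm_conj, hcn]
      linarith
    have hi3 : Integrable (fun x : Tor =>
        1 - (((starRingEnd ℂ) c) * (fourier (k : ℤ) x : ℂ)).re) μ :=
      (integrable_const _).sub (hint.const_mul _).re
    have h5 := (integral_eq_zero_iff_of_nonneg hnn hi3).1 hre
    filter_upwards [h5] with x hx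
    have hx' : (((starRingEnd ℂ) c) * (fourier (k : ℤ) x : ℂ)).re = 1 := by
      have : 1 - (((starRingEnd ℂ) c) * (fourier (k : ℤ) x : ℂ)).re = 0 := hx
      linarith
    have hn1 : ‖((starRingEnd ℂ) c) * (fourier (k : ℤ) x : ℂ)‖ = 1 := by
      rw [norm_mul, norm_fourier_pt, mul_one, RCLike.norm_conj, hcn]
    have hz : ((starRingEnd ℂ) c) * (fourier (k : ℤ) x : ℂ) = 1 := by
      have h6 : (((starRingEnd ℂ) c) * (fourier (k : ℤ) x : ℂ)).im = 0 := by
        have h7 := Complex.sq_norm (((starRingEnd ℂ) c) * (fourier (k : ℤ) x : ℂ))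
        rw [hn1, Complex.normSq_apply, hx'] at h7
        nlinarith [h7]
      exact Complex.ext (by rw [hx']; simp) (by rw [h6]; simp)
    calc (fourier (k : ℤ) x : ℂ) = (c * (starRingEnd ℂ) c) * (fourier (k : ℤ) x : ℂ) := by
          rw [hnorm, one_mul]
      _ = c * (((starRingEnd ℂ) c) * (fourier (k : ℤ) x : ℂ)) := by ring
      _ = c := by rw [hz, mul_one]
  have hsq : c = c * c := by
    have h1 : cf μ ((k : ℤ) * (2 : ℕ)) = c := cf_mul 2 h2 _
    have h4 : cf μ ((k : ℤ) * (2 : ℕ)) = c * c := by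
      unfold cf
      have h5 : ∀ᵐ x ∂μ, (fourier ((k : ℤ) * (2 : ℕ)) x : ℂ) = c * c := by
        filter_upwards [hconst] with x hx
        have e : (k : ℤ) * (2 : ℕ) = (k : ℤ) + k := by push_cast; ring
        rw [e, fourier_add, hx]
      rw [integral_congr_ae h5]
      simp
    rw [← h4, h1]
  have hc0 : c ≠ 0 := by
    intro h0
    rw [h0, norm_zero] at hcn
    exact zero_ne_one hcn
  have := mul_left_cancel₀ hc0 (show c * 1 = c * c by rw [mul_one]; exact hsq)
  exact this.symm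

end Pool.Agent.Helper27.MX
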