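import Pool.Agent.Helper87.MX.Fr5
import Pool.Agent.Helper27.MX.CF

/-!
# MixingRates (MP_81910f_an), piece PA: purely atomic measures
-/

set_option autoImplicit false

open MeasureTheory Finset Filter

open scoped ENNReal

namespace Pool.Agent.Helper27.MX

open Pool.Agent.Helper87.MX

variable {μ : Measure Tor}

/-- the atoms of mass at least `δ` -/
def Atd (μ : Measure Tor) (δ : ℝ≥0∞) : Set Tor := {x | δ ≤ μ {x}}

theorem smul_mem_Atd (g : ℕ) (h : Inv g μ) {δ : ℝ≥0∞} {x : Tor} (hx : x ∈ Atd μ δ) :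
    g • x ∈ Atd μ δ := by
  have h1 : μ ((fun y : Tor => g • y) ⁻¹' {g • x}) = μ {g • x} :=
    h.measure_preimage (measurableSet_singleton _).nullMeasurableSet
  have h2 : ({x} : Set Tor) ⊆ (fun y : Tor => g • y) ⁻¹' {g • x} := by
    intro y hy
    rw [Set.mem_singleton_iff.1 hy]
    simp
  calc δ ≤ μ {x} := hx
    _ ≤ _ := measure_mono h2
    _ = μ {g • x} := h1

theorem Atd_finite [IsProbabilityMeasure μ] {δ : ℝ≥0∞} (hδ : 0 < δ) : (Atd μ δ).Finite := by
  refine Measure.finite_const_le_meas_of_disjoint_iUnion μ hδ (As := fun x : Tor => {x})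
    (fun x => measurableSet_singleton x) ?_ (measure_ne_top _ _)
  intro x y hxy
  exact Set.disjoint_singleton.2 hxy

/-- the mass outside of the large atoms -/
theorem Atd_lim [IsProbabilityMeasure μ] (h0 : μ {x | μ {x} = 0} = 0) :
    Tendsto (fun n : ℕ => μ (Atd μ ((n : ℝ≥0∞) + 1)⁻¹)ᶜ) atTop (nhds 0) := by
  have hm : Antitone (fun n : ℕ => (Atd μ ((n : ℝ≥0∞) + 1)⁻¹)ᶜ) := by
    intro a b hab x hx hx2
    apply hx
    have h1 : ((b : ℝ≥0∞) + 1)⁻¹ ≤ ((a : ℝ≥0∞) + 1)⁻¹ := by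
      refine ENNReal.inv_le_inv.2 ?_
      gcongr
    exact h1.trans hx2
  have hs : ∀ n : ℕ, NullMeasurableSet (Atd μ ((n : ℝ≥0∞) + 1)⁻¹)ᶜ μ := by
    intro n
    refine (MeasurableSet.compl ?_).nullMeasurableSet
    exact (Atd_finite (by simp)).measurableSet
  have h1 := tendsto_measure_iInter_atTop hs hm ⟨0, measure_ne_top _ _⟩
  have h2 : μ (⋂ n : ℕ, (Atd μ ((n : ℝ≥0∞) + 1)⁻¹)ᶜ) = 0 := by
    refine measure_mono_null ?_ h0
    intro x hx
    by_contra hn
    have hn' : μ {x} ≠ 0 := hn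
    obtain ⟨n, hnn⟩ := ENNReal.exists_inv_nat_lt hn'
    refine (Set.mem_iInter.1 hx n) ?_
    have : ((n : ℝ≥0∞) + 1)⁻¹ ≤ ((n : ℝ≥0∞))⁻¹ := ENNReal.inv_le_inv.2 le_self_add
    exact this.trans hnn.le
  rw [h2] at h1
  exact h1

/-- eventual periodicity on a finite set mapped into itself -/
theorem periodic' {g : ℕ} {Z : Set Tor} (hZ : Z.Finite) (hg : ∀ x ∈ Z, g • x ∈ Z) :
    ∃ n₀ m : ℕ, 1 ≤ m ∧ ∀ x ∈ Z, ∀ t : ℕ, (g ^ (n₀ + m * t)) • x = (g ^ n₀) • x := by
  have : Finite Z := hZ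
  let T : Z → Z := fun x => ⟨g • (x : Tor), hg x x.2⟩
  have hT : ∀ (n : ℕ) (x : Z), ((T^[n] x : Z) : Tor) = (g ^ n) • (x : Tor) := by
    intro n
    induction n with
    | zero => intro x; simp
    | succ n ih =>
      intro x
      rw [Function.iterate_succ_apply, ih, pow_succ, mul_smul]
  obtain ⟨a, b, hab, hf⟩ := Finite.exists_ne_map_eq_of_infinite (fun n : ℕ => (T^[n] : Z → Z))
  have key : ∀ a b : ℕ, a < b → (T^[a] : Z → Z) = T^[b] →
      ∃ n₀ m : ℕ, 1 ≤ m ∧ ∀ x ∈ Z, ∀ t : ℕ, (g ^ (n₀ + m * t)) • x = (g ^ n₀) • x := by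
    intro a b hlt hf
    refine ⟨a, b - a, by omega, ?_⟩
    intro x hx t
    have h1 : (g ^ b) • x = (g ^ a) • x := by
      rw [← hT b ⟨x, hx⟩, ← hT a ⟨x, hx⟩, hf]
    induction t with
    | zero => simp
    | succ t ih =>
      have e : a + (b - a) * (t + 1) = (b - a) * t + b := by
        have : b = a + (b - a) := by omega
        rw [mul_add, mul_one]; omega
      have e2 : a + (b - a) * t = (b - a) * t + a := by omega
      rw [e, pow_add, mul_smul, h1, ← mul_smul, ← pow_add, ← e2]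
      exact ih
  rcases lt_or_gt_of_ne hab with hlt | hgt
  · exact key a b hlt hf
  · exact key b a hgt hf.symm

theorem integrable_fourier [IsProbabilityMeasure μ] (n : ℤ) :
    Integrable (fun x : Tor => (fourier n x : ℂ)) μ := by
  refine Integrable.mono' (integrable_const (1 : ℝ)) ?_ ?_
  · exact (ContinuousMap.continuous (fourier n)).aestronglyMeasurable
  · exact Eventually.of_forall fun x => by rw [norm_fourier_pt]

/-- a coefficient of norm one, invariant under doubling -/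
theorem eq_one_of_norm [IsProbabilityMeasure μ] (h2 : Inv 2 μ) (k : ℕ)
    (hnorm : cf μ k * (starRingEnd ℂ) (cf μ k) = 1) : cf μ k = 1 := by
  set c := cf μ k with hc
  have hcn : ‖c‖ = 1 := by
    have h1 : ((‖c‖ ^ 2 : ℝ) : ℂ) = 1 := by
      rw [← hnorm, Complex.mul_conj, Complex.normSq_eq_norm_sq]
    have h2 : ‖c‖ ^ 2 = 1 := by exact_mod_cast h1
    nlinarith [norm_nonneg c]
  have hint : Integrable (fun x : Tor => (fourier (k : ℤ) x : ℂ)) μ := integrable_fourier _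
  have hconst : ∀ᵐ x ∂μ, (fourier (k : ℤ) x : ℂ) = c := by
    have hre : ∫ x, (1 - (((starRingEnd ℂ) c) * (fourier (k : ℤ) x : ℂ)).re) ∂μ = 0 := by
      have hi2 : Integrable (fun x : Tor => ((starRingEnd ℂ) c) * (fourier (k : ℤ) x : ℂ)) μ :=
        hint.const_mul _
      have h1 : ∫ x, (((starRingEnd ℂ) c) * (fourier (k : ℤ) x : ℂ)).re ∂μ =
          (∫ x, ((starRingEnd ℂ) c) * (fourier (k : ℤ) x : ℂ) ∂μ).re := by
        exact integral_re hi2
      have hi2r : Integrable (fun x : Tor =>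
          (((starRingEnd ℂ) c) * (fourier (k : ℤ) x : ℂ)).re) μ := hi2.re
      rw [integral_sub (integrable_const _) hi2r, h1, integral_const_mul]
      have h4 : ∫ x, (fourier (k : ℤ) x : ℂ) ∂μ = c := rfl
      rw [h4, mul_comm, hnorm]
      simp
    have hnn : ∀ x : Tor, 0 ≤ 1 - (((starRingEnd ℂ) c) * (fourier (k : ℤ) x : ℂ)).re := by
      intro x
      have h1 : (((starRingEnd ℂ) c) * (fourier (k : ℤ) x : ℂ)).re ≤ 1 := by
        refine (Complex.re_le_norm _).trans ?_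
        rw [norm_mul, norm_fourier_pt, mul_one, RCLike.norm_conj, hcn]
      linarith
    have hi3 : Integrable (fun x : Tor =>
        1 - (((starRingEnd ℂ) c) * (fourier (k : ℤ) x : ℂ)).re) μ :=
      (integrable_const _).sub (hint.const_mul _).re
    have h5 := (integral_eq_zero_iff_of_nonneg hnn hi3).1 hre
    filter_upwards [h5] with x hx
    have hx' : (((starRingEnd ℂ) c) * (fourier (k : ℤ) x : ℂ)).re = 1 := by
      have : 1 - (((starRingEnd ℂ) c) * (fourier (k : ℤ) x : ℂ)).re = 0 := hx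
      linarith
    have hn1 : ‖((starRingEnd ℂ) c) * (fourier (k : ℤ) x : ℂ)‖ = 1 := by
      rw [norm_mul, norm_fourier_pt, mul_one, RCLike.norm_conj, hcn]
    have hz : ((starRingEnd ℂ) c) * (fourier (k : ℤ) x : ℂ) = 1 := by
      have h6 : (((starRingEnd ℂ) c) * (fourier (k : ℤ) x : ℂ)).im = 0 := by
        have h7 := Complex.sq_norm (((starRingEnd ℂ) c) * (fourier (k : ℤ) x : ℂ))
        rw [hn1, Complex.normSq_apply, hx'] at h7
        nlinarith [h7]
      exact Complex.ext (by rw [hx']; simp) (by rw [h6]; simp)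
    calc (fourier (k : ℤ) x : ℂ) = (c * (starRingEnd ℂ) c) * (fourier (k : ℤ) x : ℂ) := by
          rw [hnorm, one_mul]
      _ = c * (((starRingEnd ℂ) c) * (fourier (k : ℤ) x : ℂ)) := by ring
      _ = c := by rw [hz, mul_one]
  have hsq : c = c * c := by
    have h1 : cf μ ((k : ℤ) * (2 : ℕ)) = c := cf_mul 2 h2 _
    have h4 : cf μ ((k : ℤ) * (2 : ℕ)) = c * c := by
      unfold cf
      have h5 : ∀ᵐ x ∂μ, (fourier ((k : ℤ) * (2 : ℕ)) x : ℂ) = c * c := by
        filter_upwards [hconst] with x hx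
        have e : (k : ℤ) * (2 : ℕ) = (k : ℤ) + k := by push_cast; ring
        rw [e, fourier_add, hx]
      rw [integral_congr_ae h5]
      simp
    rw [← h4, h1]
  have hc0 : c ≠ 0 := by
    intro h0
    rw [h0, norm_zero] at hcn
    exact zero_ne_one hcn
  have := mul_left_cancel₀ hc0 (show c * 1 = c * c by rw [mul_one]; exact hsq)
  exact this.symm

/-- the coefficient at a difference of two powers which agree on a measurable set `Z` -/
theorem cf_near_one [IsProbabilityMeasure μ] {n : ℤ} {Z : Set Tor}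
    (h : ∀ x ∈ Z, (fourier n x : ℂ) = 1) : ‖1 - cf μ n‖ ≤ 2 * μ.real Zᶜ := by
  have h1 : (1 : ℂ) - cf μ n = ∫ x, (1 - (fourier n x : ℂ)) ∂μ := by
    rw [integral_sub (integrable_const _) (integrable_fourier _)]
    simp [cf]
  rw [h1]
  have h2 : ∫ x, (1 - (fourier n x : ℂ)) ∂μ = ∫ x in Zᶜ, (1 - (fourier n x : ℂ)) ∂μ := by
    symm
    refine setIntegral_eq_integral_of_forall_compl_eq_zero ?_
    intro x hx
    rw [h x (not_not.1 hx), sub_self]
  rw [h2]
  refine (norm_setIntegral_le_of_norm_le_const (C := 2) (measure_lt_top _ _) ?_).trans (le_of_eq ?_)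
  · intro x _
    refine (norm_sub_le _ _).trans ?_
    rw [norm_fourier_pt, norm_one]
    norm_num
  · rfl

theorem s_PA : S_PA := by
  intro μ hμ h2 h3 h0 g hg hmix
  have hinv : Inv g μ := by rcases hg with rfl | rfl <;> assumption
  obtain ⟨ρ, γ, hanti, hsum, hγ, hmx⟩ := hmix
  have hnorm : cf μ ((1 : ℕ) : ℤ) * (starRingEnd ℂ) (cf μ ((1 : ℕ) : ℤ)) = 1 := by
    have hb : ∀ n : ℕ, ‖1 - cf μ ((1 : ℕ) : ℤ) * (starRingEnd ℂ) (cf μ ((1 : ℕ) : ℤ))‖ ≤
        2 * μ.real (Atd μ ((n : ℝ≥0∞) + 1)⁻¹)ᶜ := by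
      intro n
      have hfin : (Atd μ ((n : ℝ≥0∞) + 1)⁻¹).Finite := Atd_finite (by simp)
      obtain ⟨n₀, m, hm, hper⟩ := periodic' hfin (fun x hx => smul_mem_Atd g hinv hx)
      have hone : ∀ t : ℕ, ‖1 - cf μ (((1 : ℕ) : ℤ) *
          ((g : ℤ) ^ (n₀ + m * t) - (g : ℤ) ^ n₀))‖ ≤
            2 * μ.real (Atd μ ((n : ℝ≥0∞) + 1)⁻¹)ᶜ := by
        intro t
        refine cf_near_one ?_
        intro x hx
        have h2 := hper x hx t
        rw [fourier_apply, mul_smul, sub_smul]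
        have e1 : ((g : ℤ) ^ (n₀ + m * t)) • x = (g ^ (n₀ + m * t)) • x := by
          rw [← natCast_zsmul]; push_cast; rfl
        have e2 : ((g : ℤ) ^ n₀) • x = (g ^ n₀) • x := by
          rw [← natCast_zsmul]; push_cast; rfl
        rw [e1, e2, h2, sub_self, smul_zero]
        simp
      have hbt : ∀ t : ℕ, 1 ≤ t →
          ‖1 - cf μ ((1 : ℕ) : ℤ) * (starRingEnd ℂ) (cf μ ((1 : ℕ) : ℤ))‖ ≤
            2 * μ.real (Atd μ ((n : ℝ≥0∞) + 1)⁻¹)ᶜ + ρ (m * t) := by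
        intro t ht
        have hpos : (0 : ℝ) ≤ (((m * t : ℕ) : ℝ)) ^ γ := by positivity
        have hd : (((m * t : ℕ) : ℝ)) ≤ |((n₀ + m * t : ℕ) : ℝ) - ((n₀ : ℕ) : ℝ)| := by
          push_cast
          rw [add_sub_cancel_left]
          exact le_abs_self _
        have hx := hmx (n₀ + m * t) (n₀ + m * t) n₀ n₀ (m * t) 1 0 0 1 (Or.inr rfl) (Or.inl rfl)
          (Or.inl rfl) (Or.inr rfl) (by rw [sub_self, abs_zero]; exact hpos)
          (by rw [sub_self, abs_zero]; exact hpos) hd hd hd hd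
        have e1 : ((1 : ℕ) : ℤ) * (1 * (g : ℤ) ^ (n₀ + m * t) - 0 * (g : ℤ) ^ (n₀ + m * t) +
            (0 * (g : ℤ) ^ n₀ - 1 * (g : ℤ) ^ n₀)) =
            ((1 : ℕ) : ℤ) * ((g : ℤ) ^ (n₀ + m * t) - (g : ℤ) ^ n₀) := by ring
        have e2 : ((1 : ℕ) : ℤ) * (1 * (g : ℤ) ^ (n₀ + m * t) - 0 * (g : ℤ) ^ (n₀ + m * t)) =
            ((1 : ℕ) : ℤ) * (g : ℤ) ^ (n₀ + m * t) := by ring
        have e3 : ((1 : ℕ) : ℤ) * (0 * (g : ℤ) ^ n₀ - 1 * (g : ℤ) ^ n₀) =
            -(((1 : ℕ) : ℤ) * (g : ℤ) ^ n₀) := by ring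
        rw [e1, e2, e3, cf_neg, cf_mul_pow g hinv, cf_mul_pow g hinv] at hx
        calc ‖1 - cf μ ((1 : ℕ) : ℤ) * (starRingEnd ℂ) (cf μ ((1 : ℕ) : ℤ))‖
            = ‖(1 - cf μ (((1 : ℕ) : ℤ) * ((g : ℤ) ^ (n₀ + m * t) - (g : ℤ) ^ n₀))) +
              (cf μ (((1 : ℕ) : ℤ) * ((g : ℤ) ^ (n₀ + m * t) - (g : ℤ) ^ n₀)) -
                cf μ ((1 : ℕ) : ℤ) * (starRingEnd ℂ) (cf μ ((1 : ℕ) : ℤ)))‖ := by
                rw [sub_add_sub_cancel]
          _ ≤ _ := (norm_add_le _ _).trans (add_le_add (hone t) hx)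
      have hlim : Tendsto (fun t : ℕ => 2 * μ.real (Atd μ ((n : ℝ≥0∞) + 1)⁻¹)ᶜ + ρ (m * t))
          atTop (nhds (2 * μ.real (Atd μ ((n : ℝ≥0∞) + 1)⁻¹)ᶜ + 0)) := by
        refine tendsto_const_nhds.add ?_
        refine hsum.tendsto_atTop_zero.comp ?_
        refine tendsto_atTop_mono (fun t => ?_) tendsto_id
        exact Nat.le_mul_of_pos_left t (by omega)
      rw [add_zero] at hlim
      refine ge_of_tendsto hlim ?_
      filter_upwards [eventually_ge_atTop 1] with t ht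
      exact hbt t ht
    have hlim : Tendsto (fun n : ℕ => 2 * μ.real (Atd μ ((n : ℝ≥0∞) + 1)⁻¹)ᶜ) atTop
        (nhds (2 * 0)) := by
      refine Tendsto.const_mul 2 ?_
      have h4 := (ENNReal.tendsto_toReal ENNReal.zero_ne_top).comp (Atd_lim h0)
      exact h4
    rw [mul_zero] at hlim
    have h5 : ‖1 - cf μ ((1 : ℕ) : ℤ) * (starRingEnd ℂ) (cf μ ((1 : ℕ) : ℤ))‖ ≤ 0 :=
      ge_of_tendsto hlim (Eventually.of_forall hb)
    have h1 := norm_le_zero_iff.1 h5
    exact (sub_eq_zero.1 h1).symm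
  have h6 := eq_one_of_norm h2 1 hnorm
  simpa using h6

end Pool.Agent.Helper27.MX
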