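import Pool.Agent.Helper87.MX.Fr3
import Pool.Agent.Helper27.MX.CF

/-!
# MixingRates (MP_81910f_an), piece RG1: coefficients close to one
-/

set_option autoImplicit false

open MeasureTheory Finset Filter

namespace Pool.Agent.Helper27.MX

open Pool.Agent.Helper87.MX

variable {μ : Measure Tor}

theorem norm_fourier_sub_one_le (n : ℕ) (z : Tor) :
    ‖(fourier (n : ℤ) z : ℂ) - 1‖ ≤ 2 * Real.pi * n * ‖z‖ := by
  induction z using QuotientAddGroup.induction_on with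
  | H t =>
    have e1 : ‖((t : ℝ) : Tor)‖ = |t - round t| := UnitAddCircle.norm_eq
    have e2 : ((t : ℝ) : Tor) = ((t - round t : ℝ) : Tor) := by
      rw [AddCircle.coe_sub]
      have h0 : (((round t : ℤ) : ℝ) : Tor) = 0 := by
        rw [AddCircle.coe_eq_zero_iff]
        exact ⟨round t, by simp⟩
      rw [h0, sub_zero]
    have e3 : (fourier (n : ℤ) ((t : ℝ) : Tor) : ℂ) =
        Complex.exp (Complex.I * ((2 * Real.pi * n * (t - round t) : ℝ) : ℂ)) := by
      rw [e2, fourier_coe_apply]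
      congr 1
      push_cast
      ring
    have e4 : ‖((t : ℝ) : Tor)‖ = ‖(QuotientAddGroup.mk t : Tor)‖ := rfl
    rw [← e4, e1]
    have e5 : (fourier (n : ℤ) (QuotientAddGroup.mk t : Tor) : ℂ) =
      fourier (n : ℤ) ((t : ℝ) : Tor) := rfl
    rw [e5, e3]
    refine Real.norm_exp_I_mul_ofReal_sub_one_le.trans ?_
    rw [Real.norm_eq_abs, abs_mul, abs_of_nonneg (by positivity)]

theorem fourier_lip (n : ℕ) (x y : Tor) :
    ‖(fourier (n : ℤ) x : ℂ) - fourier (n : ℤ) y‖ ≤ 2 * Real.pi * n * ‖x - y‖ := by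
  have h1 : (fourier (n : ℤ) x : ℂ) = fourier (n : ℤ) (x - y) * fourier (n : ℤ) y := by
    rw [fourier_apply, fourier_apply, fourier_apply, ← Circle.coe_mul, ← AddCircle.toCircle_add,
      ← smul_add, sub_add_cancel]
  rw [h1]
  have h2 : (fourier (n : ℤ) (x - y) : ℂ) * fourier (n : ℤ) y - fourier (n : ℤ) y =
      ((fourier (n : ℤ) (x - y) : ℂ) - 1) * fourier (n : ℤ) y := by ring
  rw [h2, norm_mul, norm_fourier_pt, mul_one]
  exact norm_fourier_sub_one_le n _

theorem fourier_half {n : ℕ} (hn : Odd n) (x : Tor) :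
    (fourier (n : ℤ) (x + ((1 / 2 : ℝ) : Tor)) : ℂ) = -fourier (n : ℤ) x := by
  have h1 : (fourier (n : ℤ) (x + ((1 / 2 : ℝ) : Tor)) : ℂ) =
      fourier (n : ℤ) x * fourier (n : ℤ) ((1 / 2 : ℝ) : Tor) := by
    rw [fourier_apply, fourier_apply, fourier_apply, ← Circle.coe_mul, ← AddCircle.toCircle_add,
      ← smul_add]
  rw [h1, fourier_coe_apply]
  obtain ⟨m, rfl⟩ := hn
  have h2 : 2 * (Real.pi : ℂ) * Complex.I * (((2 * m + 1 : ℕ) : ℤ) : ℂ) * ((1 / 2 : ℝ) : ℂ) /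
      ((1 : ℝ) : ℂ) = (m : ℤ) * (2 * Real.pi * Complex.I) + Real.pi * Complex.I := by
    push_cast
    ring
  rw [h2, Complex.exp_add, Complex.exp_int_mul_two_pi_mul_I, one_mul, Complex.exp_pi_mul_I]
  ring

theorem far_le [IsProbabilityMeasure μ] (n : ℕ) :
    far μ (fun x => (fourier (n : ℤ) x : ℂ)) ≤ 8 * ‖1 - cf μ n‖ := by
  have hint : Integrable (fun x : Tor => (fourier (n : ℤ) x : ℂ)) μ := by
    refine Integrable.mono' (integrable_const (1 : ℝ)) ?_ ?_
    · exact (ContinuousMap.continuous (fourier (n : ℤ))).aestronglyMeasurable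
    · exact Eventually.of_forall fun x => by rw [norm_fourier_pt]
  have hsq : ∀ x : Tor, ‖(fourier (n : ℤ) x : ℂ) - 1‖ ^ 2 = 2 - 2 * (fourier (n : ℤ) x : ℂ).re := by
    intro x
    have h1 : ‖(fourier (n : ℤ) x : ℂ)‖ ^ 2 = 1 := by rw [norm_fourier_pt, one_pow]
    rw [Complex.sq_norm, Complex.normSq_apply] at h1 ⊢
    simp only [Complex.sub_re, Complex.sub_im, Complex.one_re, Complex.one_im]
    linarith
  have hre : Integrable (fun x : Tor => (fourier (n : ℤ) x : ℂ).re) μ := hint.re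
  have hi : Integrable (fun x : Tor => ‖(fourier (n : ℤ) x : ℂ) - 1‖ ^ 2) μ := by
    simp only [hsq]
    exact (integrable_const _).sub (hre.const_mul 2)
  have hval : ∫ x, ‖(fourier (n : ℤ) x : ℂ) - 1‖ ^ 2 ∂μ = 2 * (1 - cf μ n).re := by
    simp only [hsq]
    rw [integral_sub (integrable_const _) (hre.const_mul 2), integral_const_mul]
    have h1 : ∫ x, (fourier (n : ℤ) x : ℂ).re ∂μ = (cf μ n).re := integral_re hint
    rw [h1]
    simp
    ring
  have hmk := mul_meas_ge_le_integral_of_nonneg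
    (μ := μ) (f := fun x : Tor => ‖(fourier (n : ℤ) x : ℂ) - 1‖ ^ 2)
    (Eventually.of_forall fun x => by positivity) hi (1 / 4)
  have hset : {x : Tor | 1 / 2 ≤ ‖(fourier (n : ℤ) x : ℂ) - 1‖} ⊆
      {x : Tor | 1 / 4 ≤ ‖(fourier (n : ℤ) x : ℂ) - 1‖ ^ 2} := by
    intro x hx
    have hx' : (1 : ℝ) / 2 ≤ ‖(fourier (n : ℤ) x : ℂ) - 1‖ := hx
    show (1 : ℝ) / 4 ≤ ‖(fourier (n : ℤ) x : ℂ) - 1‖ ^ 2
    nlinarith
  have hmono : far μ (fun x => (fourier (n : ℤ) x : ℂ)) ≤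
      μ.real {x : Tor | 1 / 4 ≤ ‖(fourier (n : ℤ) x : ℂ) - 1‖ ^ 2} :=
    measureReal_mono hset
  have hre_le : (1 - cf μ n).re ≤ ‖1 - cf μ n‖ := Complex.re_le_norm _
  have hmk' : (1 / 4 : ℝ) * μ.real {x : Tor | 1 / 4 ≤ ‖(fourier (n : ℤ) x : ℂ) - 1‖ ^ 2} ≤
      2 * (1 - cf μ n).re := by
    rw [← hval]
    exact hmk
  linarith

/-- the odd part -/
theorem exists_odd_part {n : ℕ} (hn : 1 ≤ n) : ∃ v m : ℕ, Odd m ∧ n = 2 ^ v * m := by
  obtain ⟨v, m, hm, h⟩ := Nat.exists_eq_two_pow_mul_odd (n := n) (by omega)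
  exact ⟨v, m, hm, h⟩

theorem s_RG1 : S_RG1 := by
  intro μ hμ h2 n hn hsum
  have hodd : ∀ j, ∃ v m : ℕ, Odd m ∧ n j = 2 ^ v * m := fun j => exists_odd_part (hn j).1
  choose v m hm hnm using hodd
  have hml : ∀ j, m j ≤ 2 ^ j := by
    intro j
    refine le_trans ?_ (hn j).2
    rw [hnm j]
    exact Nat.le_mul_of_pos_left _ (by positivity)
  have hcf : ∀ j, cf μ (m j) = cf μ (n j) := by
    intro j
    have h1 := cf_mul_pow 2 h2 (m j : ℤ) (v j)
    rw [← h1]
    congr 1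
    rw [hnm j]
    push_cast
    ring
  let P : ℕ → Tor → ℂ := fun j => if 2 ≤ j then fun x => (fourier ((m (j - 2) : ℕ) : ℤ) x : ℂ)
    else fun _ => 0
  have hP : ∀ j, P (j + 2) = fun x => (fourier ((m j : ℕ) : ℤ) x : ℂ) := by
    intro j
    have : 2 ≤ j + 2 := by omega
    simp only [P, if_pos this, Nat.add_sub_cancel]
  refine ⟨P, ?_, ?_⟩
  · intro j
    rcases lt_or_ge j 2 with hj | hj
    · have hP0 : P j = fun _ => 0 := by
        simp only [P, if_neg (not_le.2 hj)]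
      rw [hP0]
      refine ⟨fun x => by simp, fun x y => ?_⟩
      simp only [sub_self, norm_zero]
      positivity
    · obtain ⟨i, rfl⟩ : ∃ i, j = i + 2 := ⟨j - 2, by omega⟩
      rw [hP i]
      refine ⟨fun x => fourier_half (hm i) x, fun x y => ?_⟩
      refine (fourier_lip (m i) x y).trans ?_
      refine mul_le_mul_of_nonneg_right ?_ (norm_nonneg _)
      have h1 : (m i : ℝ) ≤ 2 ^ i := by exact_mod_cast hml i
      have h3 : (2 : ℝ) ^ (i + 2 + 1) = 8 * 2 ^ i := by ring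
      rw [h3]
      have h4 : 2 * Real.pi ≤ 8 := by linarith [Real.pi_le_four]
      calc 2 * Real.pi * (m i : ℝ) ≤ 8 * (m i : ℝ) :=
            mul_le_mul_of_nonneg_right h4 (by positivity)
        _ ≤ 8 * 2 ^ i := by linarith
  · refine (summable_nat_add_iff 2).1 ?_
    have hle : ∀ j, far μ (P (j + 2)) ≤ 8 * ‖1 - cf μ (n j)‖ := by
      intro j
      rw [hP j, ← hcf j]
      exact far_le (m j)
    refine Summable.of_nonneg_of_le (fun j => measureReal_nonneg) hle (hsum.mul_left 8)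

end Pool.Agent.Helper27.MX
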